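import Mathlib

/-!
Sharp closed convex sets and polyhedral sets in Hilbert spaces: definitions.
-/

set_option autoImplicit false

namespace Q93.Sharp

open scoped RealInnerProductSpace

variable {H : Type*} [NormedAddCommGroup H] [InnerProductSpace ℝ H]

/-- The normal cone of `A` at `x`. -/
def normalCone (A : Set H) (x : H) : Set H := {v | ∀ a ∈ A, ⟪a - x, v⟫ ≤ 0}

/-- `A` is `α`-sharp with respect to `u`: `d(u, N_A(x)) ≥ α` for every `x ∈ A` with
`u ∉ N_A(x)`. -/
def IsSharp (A : Set H) (u : H) (α : ℝ) : Prop :=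
  ∀ x ∈ A, u ∉ normalCone A x → α ≤ Metric.infDist u (normalCone A x)

/-- One and the same `α > 0` makes `A` `α`-sharp with respect to every unit vector. -/
def UniformlySharp (A : Set H) : Prop :=
  ∃ α : ℝ, 0 < α ∧ ∀ u : H, ‖u‖ = 1 → IsSharp A u α

/-- For every unit vector `u` there is `α > 0`, possibly depending on `u`, such that `A` is
`α`-sharp with respect to `u`. -/
def PointwiseSharp (A : Set H) : Prop :=
  ∀ u : H, ‖u‖ = 1 → ∃ α : ℝ, 0 < α ∧ IsSharp A u α

/-- `P` is polyhedral: it is the solution set of finitely many (at least one) linear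
inequalities. -/
def IsPolyhedral (P : Set H) : Prop :=
  ∃ (m : ℕ) (a : Fin m → H) (b : Fin m → ℝ), 1 ≤ m ∧ P = {x | ∀ j, ⟪a j, x⟫ ≤ b j}

/-- `A` is a nonempty, bounded, closed, convex set with dense linear span which is sharp with
respect to every unit vector (with `α` depending on the vector) and which is not polyhedral. -/
def SharpNotPolyhedral (A : Set H) : Prop :=
  A.Nonempty ∧ Bornology.IsBounded A ∧ IsClosed A ∧ Convex ℝ A ∧
    (Submodule.span ℝ A).topologicalClosure = ⊤ ∧ PointwiseSharp A ∧ ¬ IsPolyhedral A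

end Q93.Sharp
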