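import Pool.Agent.Q93.Sharp.Main

/-!
The unit ball of `ℓ¹` as a subset of `ℓ²`.
-/

set_option autoImplicit false

namespace Q93.Sharp

open scoped RealInnerProductSpace
open Topology Filter

/-- The real Hilbert space `ℓ²`. -/
abbrev E : Type := lp (fun _ : ℕ => ℝ) 2

/-- The unit ball of `ℓ¹`. -/
def B1 : Set E := {x | ∀ s : Finset ℕ, ∑ i ∈ s, |x i| ≤ 1}

lemma B1_summable {x : E} (hx : x ∈ B1) : Summable fun n => |x n| :=
  summable_of_sum_le (fun _ => abs_nonneg _) hx

lemma B1_tsum {x : E} (hx : x ∈ B1) : ∑' n, |x n| ≤ 1 :=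
  (B1_summable hx).tsum_le_of_sum_le hx

lemma hasSum_inner' (x y : E) : HasSum (fun n => x n * y n) ⟪x, y⟫ := by
  have h := lp.hasSum_inner (𝕜 := ℝ) x y
  have e : (fun n => x n * y n) = fun n => inner ℝ (x n) (y n) := by
    funext n
    simp [mul_comm]
  rw [e]
  exact h

lemma coord_le (x : E) (n : ℕ) : |x n| ≤ ‖x‖ := by
  have := lp.norm_apply_le_norm (p := 2) (by norm_num) x n
  rwa [Real.norm_eq_abs] at this

lemma isClosed_B1 : IsClosed B1 := by
  have : B1 = ⋂ s : Finset ℕ, {x : E | ∑ i ∈ s, |x i| ≤ 1} := by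
    ext x; simp [B1]
  rw [this]
  apply isClosed_iInter
  intro s
  apply isClosed_le _ continuous_const
  apply continuous_finsetSum
  intro i _
  have : Continuous fun y : E => y i := (lp.evalCLM ℝ (fun _ : ℕ => ℝ) 2 i).continuous
  exact this.abs

lemma convex_B1 : Convex ℝ B1 := by
  intro x hx y hy a b ha hb hab s
  have h1 : ∀ i, |(a • x + b • y) i| ≤ a * |x i| + b * |y i| := by
    intro i
    have : (a • x + b • y) i = a * x i + b * y i := rfl
    rw [this]
    refine (abs_add_le _ _).trans ?_
    rw [abs_mul, abs_mul, abs_of_nonneg ha, abs_of_nonneg hb]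
  calc ∑ i ∈ s, |(a • x + b • y) i| ≤ ∑ i ∈ s, (a * |x i| + b * |y i|) :=
        Finset.sum_le_sum fun i _ => h1 i
    _ = a * ∑ i ∈ s, |x i| + b * ∑ i ∈ s, |y i| := by
        rw [Finset.sum_add_distrib, Finset.mul_sum, Finset.mul_sum]
    _ ≤ a * 1 + b * 1 := by gcongr; exacts [hx s, hy s]
    _ = 1 := by linarith

lemma zero_mem_B1 : (0 : E) ∈ B1 := fun s => by simp

lemma single_mem_B1 (n : ℕ) {c : ℝ} (hc : |c| ≤ 1) : (lp.single 2 n c : E) ∈ B1 := by
  intro s
  by_cases hn : n ∈ s
  · rw [Finset.sum_eq_single_of_mem n hn]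
    · simpa using hc
    · intro b _ hb
      simp [lp.single_apply, hb]
  · rw [Finset.sum_eq_zero]
    · norm_num
    · intro b hb
      have : b ≠ n := fun h => hn (h ▸ hb)
      simp [lp.single_apply, this]

lemma norm_le_one {x : E} (hx : x ∈ B1) : ‖x‖ ≤ 1 := by
  have h1 : ‖x‖ ^ 2 ≤ 1 := by
    rw [← real_inner_self_eq_norm_sq, ← (hasSum_inner' x x).tsum_eq]
    refine le_trans ?_ (B1_tsum hx)
    apply Summable.tsum_le_tsum _ (hasSum_inner' x x).summable (B1_summable hx)
    intro n
    have h2 : |x n| ≤ 1 := by simpa using hx {n}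
    rw [← abs_mul_abs_self]
    nlinarith [abs_nonneg (x n)]
  nlinarith [norm_nonneg x]

lemma bounded_B1 : Bornology.IsBounded B1 := by
  rw [isBounded_iff_forall_norm_le]
  exact ⟨1, fun x hx => norm_le_one hx⟩

lemma dense_span_B1 : (Submodule.span ℝ B1).topologicalClosure = ⊤ := by
  rw [Submodule.topologicalClosure_eq_top_iff, eq_bot_iff]
  intro y hy
  rw [Submodule.mem_bot]
  ext n
  have h1 := (Submodule.mem_orthogonal _ y).1 hy (lp.single 2 n 1)
    (Submodule.subset_span (single_mem_B1 n (by simp)))
  have h2 := lp.inner_single_left (𝕜 := ℝ) n (1 : ℝ) y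
  rw [h1] at h2
  simpa using h2.symm

lemma inner_single' (n : ℕ) (c : ℝ) (v : E) : ⟪(lp.single 2 n c : E), v⟫ = c * v n := by
  have h2 := lp.inner_single_left (𝕜 := ℝ) n c v
  rw [h2]
  simp [mul_comm]

/-- Description of the normal cones of the `ℓ¹` ball. -/
lemma normal_props {x v : E} (hx : x ∈ B1) (hv : v ∈ normalCone B1 x) :
    (∀ n, |v n| ≤ ⟪x, v⟫) ∧ (∀ n, |x n| * ⟪x, v⟫ = x n * v n) ∧
      (∑' n, |x n| < 1 → v = 0) := by
  set c := ⟪x, v⟫ with hc
  have h1 : ∀ n, |v n| ≤ c := by
    intro n
    rw [abs_le]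
    constructor
    · have := hv (lp.single 2 n (-1)) (single_mem_B1 n (by simp))
      rw [inner_sub_left, inner_single'] at this
      linarith
    · have := hv (lp.single 2 n 1) (single_mem_B1 n (by simp))
      rw [inner_sub_left, inner_single'] at this
      linarith
  have hc0 : 0 ≤ c := (abs_nonneg _).trans (h1 0)
  have hs1 : HasSum (fun n => |x n| * c - x n * v n) ((∑' n, |x n|) * c - c) :=
    ((B1_summable hx).hasSum.mul_right c).sub (hasSum_inner' x v)
  have hnn : ∀ n, 0 ≤ |x n| * c - x n * v n := by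
    intro n
    have h2 : x n * v n ≤ |x n| * |v n| := by rw [← abs_mul]; exact le_abs_self _
    have h3 : |x n| * |v n| ≤ |x n| * c := by gcongr; exact h1 n
    linarith
  have hle : (∑' n, |x n|) * c - c ≤ 0 := by
    have := B1_tsum hx
    nlinarith
  have heq : (∑' n, |x n|) * c - c = 0 := le_antisymm hle (hs1.nonneg hnn)
  refine ⟨h1, fun n => ?_, fun hlt => ?_⟩
  · rw [heq] at hs1
    have := (hasSum_zero_iff_of_nonneg hnn).1 hs1
    have h2 := congrFun this n
    simp only [Pi.zero_apply] at h2
    linarith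
  · have hcz : c = 0 := by
      by_contra hne
      have hcp : 0 < c := lt_of_le_of_ne hc0 (Ne.symm hne)
      nlinarith
    ext n
    have := h1 n
    rw [hcz] at this
    exact abs_nonpos_iff.1 this

lemma mem_normalCone_of {x u : E} {M : ℝ} (hM : ∀ n, |u n| ≤ M)
    (h1 : ∀ n, |x n| * M = x n * u n) (h2 : ∑' n, |x n| = 1) : u ∈ normalCone B1 x := by
  intro a ha
  rw [inner_sub_left]
  have e1 : ⟪x, u⟫ = M := by
    rw [← (hasSum_inner' x u).tsum_eq]
    simp_rw [← h1]
    rw [tsum_mul_right, h2, one_mul]
  have hM0 : 0 ≤ M := (abs_nonneg _).trans (hM 0)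
  have e2 : ⟪a, u⟫ ≤ M := by
    rw [← (hasSum_inner' a u).tsum_eq]
    calc ∑' n, a n * u n ≤ ∑' n, |a n| * M := by
          apply Summable.tsum_le_tsum _ (hasSum_inner' a u).summable
            ((B1_summable ha).mul_right M)
          intro n
          calc a n * u n ≤ |a n| * |u n| := by rw [← abs_mul]; exact le_abs_self _
            _ ≤ |a n| * M := by gcongr; exact hM n
      _ = (∑' n, |a n|) * M := tsum_mul_right
      _ ≤ 1 * M := by gcongr; exact B1_tsum ha
      _ = M := one_mul M
  linarith

/-- The maximal modulus of the coordinates of `u` is attained, with a gap. -/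
lemma exists_gap (u : E) (hu : ‖u‖ = 1) : ∃ (M δ : ℝ), 0 < M ∧ 0 < δ ∧ δ ≤ M ∧
    (∃ n, |u n| = M) ∧ (∀ n, |u n| ≤ M) ∧ ∀ n, |u n| = M ∨ |u n| ≤ M - δ := by
  have hlim : Tendsto (fun n => |u n|) atTop (𝓝 0) := by
    have h1 : Summable fun n => u n * u n := (hasSum_inner' u u).summable
    have h2 := h1.tendsto_atTop_zero.sqrt
    simpa [Real.sqrt_mul_self_eq_abs] using h2
  have hne : ∃ k, u k ≠ 0 := by
    by_contra hcon
    push Not at hcon
    have : u = 0 := by ext n; exact hcon n
    rw [this, norm_zero] at hu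
    norm_num at hu
  obtain ⟨k, hk⟩ := hne
  have hkp : 0 < |u k| := abs_pos.2 hk
  -- the sup is attained
  obtain ⟨N, hN⟩ := (hlim.eventually_lt_const hkp).exists_forall_of_atTop
  obtain ⟨n₀, hn₀, hmax⟩ := Finset.exists_max_image (Finset.range (N + k + 1)) (fun n => |u n|)
    ⟨0, by simp⟩
  have hkM : |u k| ≤ |u n₀| := hmax k (by simp)
  have hall : ∀ n, |u n| ≤ |u n₀| := by
    intro n
    by_cases hn : n < N + k + 1
    · exact hmax n (Finset.mem_range.2 hn)
    · exact ((hN n (by omega)).le).trans hkM
  set M := |u n₀| with hM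
  have hMp : 0 < M := hkp.trans_le hkM
  obtain ⟨N', hN'⟩ := (hlim.eventually_lt_const (half_pos hMp)).exists_forall_of_atTop
  by_cases hne2 : ((Finset.range N').filter fun n => |u n| < M).Nonempty
  · obtain ⟨n₁, hn₁, hmax₁⟩ := Finset.exists_max_image _ (fun n => |u n|) hne2
    rw [Finset.mem_filter] at hn₁
    refine ⟨M, min (M - |u n₁|) (M / 2), hMp, lt_min (by linarith [hn₁.2]) (by linarith), ?_,
      ⟨n₀, rfl⟩, hall, ?_⟩
    · exact (min_le_right _ _).trans (by linarith)
    · intro n
      by_cases hlt : |u n| < M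
      · right
        by_cases hn : n < N'
        · have := hmax₁ n (Finset.mem_filter.2 ⟨Finset.mem_range.2 hn, hlt⟩)
          have h2 := min_le_left (M - |u n₁|) (M / 2)
          simp only at this
          linarith
        · have h1 := hN' n (by omega)
          have h2 := min_le_right (M - |u n₁|) (M / 2)
          linarith
      · left; exact le_antisymm (hall n) (not_lt.1 hlt)
  · refine ⟨M, M / 2, hMp, by linarith, by linarith, ⟨n₀, rfl⟩, hall, ?_⟩
    intro n
    by_cases hlt : |u n| < M
    · right
      by_cases hn : n < N'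
      · exact absurd ⟨n, Finset.mem_filter.2 ⟨Finset.mem_range.2 hn, hlt⟩⟩ hne2
      · have h1 := hN' n (by omega)
        linarith
    · left; exact le_antisymm (hall n) (not_lt.1 hlt)

theorem pointwiseSharp_B1 : PointwiseSharp B1 := by
  intro u hu
  obtain ⟨M, δ, hM, hδ, hδM, ⟨n₀, hn₀⟩, hle, hgap⟩ := exists_gap u hu
  refine ⟨min (δ / 2) 1, lt_min (by linarith) one_pos, ?_⟩
  intro x hx hux
  rw [Metric.le_infDist ⟨0, zero_mem_normalCone _ _⟩]
  intro v hv
  obtain ⟨h1, h2, h3⟩ := normal_props hx hv
  set c := ⟪x, v⟫ with hc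
  rcases (B1_tsum hx).lt_or_eq with hlt | heq
  · rw [h3 hlt, dist_zero_right, hu]
    exact min_le_right _ _
  · refine (min_le_left _ _).trans ?_
    have hex : ∃ n, |x n| * M ≠ x n * u n := by
      by_contra hcon
      push Not at hcon
      exact hux (mem_normalCone_of hle hcon heq)
    obtain ⟨n, hn⟩ := hex
    have hd : ∀ k, |u k - v k| ≤ dist u v := by
      intro k
      rw [dist_eq_norm]
      exact coord_le (u - v) k
    have hdn := hd n
    have hdn₀ := hd n₀
    have hvn₀ := h1 n₀
    have hc1 : M - dist u v ≤ c := by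
      have := abs_sub_abs_le_abs_sub (u n₀) (v n₀)
      rw [hn₀] at this
      linarith
    have hun := hle n
    have h2n := h2 n
    rcases lt_trichotomy (x n) 0 with hxn | hxn | hxn
    · -- negative coordinate
      rw [abs_of_neg hxn] at h2n hn
      have hvn : v n = -c := by
        have : x n * (v n + c) = 0 := by linarith
        rcases mul_eq_zero.1 this with h | h
        · linarith
        · linarith
      have hune : u n ≠ -M := by
        intro h
        apply hn
        rw [h]; ring
      have hug : -M + δ ≤ u n := by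
        rcases hgap n with h | h
        · rcases abs_eq hM.le |>.1 h with h' | h'
          · linarith
          · exact absurd h' hune
        · have := (abs_le.1 h).1
          linarith
      rw [hvn] at hdn
      have := (abs_le.1 hdn).2
      have h5 : c ≤ M + dist u v := by
        have h6 := (abs_le.1 hdn).2
        have h7 := (abs_le.1 hun).1
        linarith
      linarith
    · rw [hxn] at hn
      simp at hn
    · rw [abs_of_pos hxn] at h2n hn
      have hvn : v n = c := by
        have : x n * (v n - c) = 0 := by linarith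
        rcases mul_eq_zero.1 this with h | h
        · linarith
        · linarith
      have hune : u n ≠ M := by
        intro h
        apply hn
        rw [h]
      have hug : u n ≤ M - δ := by
        rcases hgap n with h | h
        · rcases abs_eq hM.le |>.1 h with h' | h'
          · exact absurd h' hune
          · linarith
        · have := (abs_le.1 h).2
          linarith
      rw [hvn] at hdn
      have := (abs_le.1 hdn).1
      linarith

lemma E_infinite : ¬ FiniteDimensional ℝ E := by
  intro h
  have hli : LinearIndependent ℝ fun n : ℕ => (lp.single 2 n (1 : ℝ) : E) := by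
    have ho : Orthonormal ℝ fun n : ℕ => (lp.single 2 n (1 : ℝ) : E) := by
      rw [orthonormal_iff_ite]
      intro i j
      rw [inner_single', lp.single_apply]
      by_cases hij : i = j
      · subst hij; simp
      · simp [hij]
    exact ho.linearIndependent
  exact (Module.Finite.finite_basis (R := ℝ) (M := (Submodule.span ℝ (Set.range fun n : ℕ =>
    (lp.single 2 n (1 : ℝ) : E)))) (Module.Basis.span hli)).false

end Q93.Sharp
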