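import Pool.Agent.Q93.Sharp.Defs

/-!
Sharp closed convex sets and polyhedral sets in Hilbert spaces.
-/

set_option autoImplicit false

namespace Q93.Sharp

open scoped RealInnerProductSpace
open Topology Filter

variable {H : Type*} [NormedAddCommGroup H] [InnerProductSpace ℝ H]

lemma zero_mem_normalCone (A : Set H) (x : H) : (0 : H) ∈ normalCone A x := fun a _ => by simp

lemma isClosed_normalCone (A : Set H) (x : H) : IsClosed (normalCone A x) := by
  have : normalCone A x = ⋂ a ∈ A, {v | ⟪a - x, v⟫ ≤ 0} := by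
    ext v; simp [normalCone]
  rw [this]
  apply isClosed_biInter
  intro a _
  exact isClosed_le (by fun_prop) continuous_const

lemma smul_mem_normalCone {A : Set H} {x v : H} (hv : v ∈ normalCone A x) {c : ℝ} (hc : 0 ≤ c) :
    c • v ∈ normalCone A x := by
  intro a ha
  rw [inner_smul_right]
  exact mul_nonpos_of_nonneg_of_nonpos hc (hv a ha)

/-- the metric projection and its normal vector -/
lemma exists_proj [CompleteSpace H] {A : Set H} (hne : A.Nonempty) (hcl : IsClosed A)
    (hconv : Convex ℝ A) (y : H) : ∃ x ∈ A, y - x ∈ normalCone A x := by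
  obtain ⟨x, hx, hmin⟩ := exists_norm_eq_iInf_of_complete_convex hne hcl.isComplete hconv y
  refine ⟨x, hx, fun a ha => ?_⟩
  have := (norm_eq_iInf_iff_real_inner_le_zero hconv hx).1 hmin a ha
  rwa [real_inner_comm]

/-- A uniformly sharp set in dimension at least two is the whole space or a singleton. -/
theorem eq_univ_or_singleton [CompleteSpace H] (hrank : 1 < Module.rank ℝ H) {A : Set H}
    (hne : A.Nonempty) (hcl : IsClosed A) (hconv : Convex ℝ A) (h : UniformlySharp A) :
    A = Set.univ ∨ ∃ x, A = {x} := by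
  by_contra hcon
  push Not at hcon
  obtain ⟨huniv, hsing⟩ := hcon
  obtain ⟨α, hα, hsharp⟩ := h
  obtain ⟨y, hy⟩ : ∃ y, y ∉ A := by
    by_contra hc
    push Not at hc
    exact huniv (Set.eq_univ_of_forall hc)
  obtain ⟨x, hx, hxy⟩ := exists_proj hne hcl hconv y
  have hyx : y - x ≠ 0 := fun h0 => hy (by rw [sub_eq_zero.1 h0]; exact hx)
  have hnorm : 0 < ‖y - x‖ := norm_pos_iff.2 hyx
  obtain ⟨a, ha, hax⟩ : ∃ a ∈ A, a ≠ x := by
    by_contra hc
    push Not at hc
    apply hsing x
    ext z
    constructor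
    · intro hz; exact hc z hz
    · intro hz; rw [Set.mem_singleton_iff.1 hz]; exact hx
  have hax' : 0 < ‖a - x‖ := norm_pos_iff.2 (sub_ne_zero.2 hax)
  have hconn : IsPreconnected (Metric.sphere (0 : H) 1) := isPreconnected_sphere hrank 0 1
  rw [isPreconnected_closed_iff] at hconn
  have h1 := hconn (normalCone A x) {u | α ≤ Metric.infDist u (normalCone A x)}
    (isClosed_normalCone A x) (isClosed_le continuous_const (Metric.continuous_infDist_pt _))
    (by
      intro u hu
      by_cases hmem : u ∈ normalCone A x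
      · exact Or.inl hmem
      · exact Or.inr (hsharp u (by simpa using hu) x hx hmem))
    ⟨‖y - x‖⁻¹ • (y - x), by
      rw [mem_sphere_zero_iff_norm, norm_smul, norm_inv, norm_norm,
        inv_mul_cancel₀ hnorm.ne'], smul_mem_normalCone hxy (by positivity)⟩
    ⟨‖a - x‖⁻¹ • (a - x), by
      rw [mem_sphere_zero_iff_norm, norm_smul, norm_inv, norm_norm,
        inv_mul_cancel₀ hax'.ne'], by
      apply hsharp _ (by rw [norm_smul, norm_inv, norm_norm, inv_mul_cancel₀ hax'.ne']) x hx
      intro hmem
      have := hmem a ha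
      rw [inner_smul_right, real_inner_self_eq_norm_sq] at this
      have : 0 < ‖a - x‖⁻¹ * ‖a - x‖ ^ 2 := by positivity
      linarith⟩
  obtain ⟨u, -, hu1, hu2⟩ := h1
  have h0 : Metric.infDist u (normalCone A x) = 0 := Metric.infDist_zero_of_mem hu1
  simp only [Set.mem_ofPred_eq, h0] at hu2
  linarith

lemma uniformlySharp_univ : UniformlySharp (Set.univ : Set H) := by
  refine ⟨1, one_pos, fun u hu x _ _ => ?_⟩
  have hN : normalCone (Set.univ : Set H) x = {0} := by
    ext v
    constructor
    · intro hv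
      have := hv (x + v) trivial
      rw [add_sub_cancel_left, real_inner_self_eq_norm_sq] at this
      have h0 : ‖v‖ = 0 := by nlinarith [norm_nonneg v]
      exact norm_eq_zero.1 h0
    · intro hv; rw [Set.mem_singleton_iff.1 hv]; exact zero_mem_normalCone _ _
  rw [hN, Metric.infDist_singleton, dist_zero_right, hu]

lemma uniformlySharp_singleton (x : H) : UniformlySharp ({x} : Set H) := by
  refine ⟨1, one_pos, fun u _ y hy hu => ?_⟩
  exfalso
  apply hu
  intro a ha
  rw [Set.mem_singleton_iff] at ha hy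
  rw [ha, hy, sub_self, inner_zero_left]

/-- In an infinite-dimensional space a nonempty polyhedral set is unbounded. -/
lemma not_bounded_of_polyhedral (hinf : ¬ FiniteDimensional ℝ H) {P : Set H}
    (hne : P.Nonempty) (hP : IsPolyhedral P) : ¬ Bornology.IsBounded P := by
  obtain ⟨m, a, b, -, rfl⟩ := hP
  obtain ⟨x, hx⟩ := hne
  -- a nonzero vector orthogonal to all `a j`
  obtain ⟨y, hy0, hy⟩ : ∃ y : H, y ≠ 0 ∧ ∀ j, ⟪a j, y⟫ = 0 := by
    by_contra hcon
    push Not at hcon
    apply hinf
    let L : H →ₗ[ℝ] (Fin m → ℝ) := LinearMap.pi fun j => (innerSL ℝ (a j) : H →ₗ[ℝ] ℝ)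
    have hinj : Function.Injective L := by
      rw [← LinearMap.ker_eq_bot, LinearMap.ker_eq_bot']
      intro y hy
      by_contra hy0
      obtain ⟨j, hj⟩ := hcon y hy0
      exact hj (congrFun hy j)
    exact FiniteDimensional.of_injective L hinj
  intro hb
  obtain ⟨C, hC⟩ := hb.exists_norm_le
  have hyn : 0 < ‖y‖ := norm_pos_iff.2 hy0
  have hCx : ∀ t : ℝ, ‖x + t • y‖ ≤ C := by
    intro t
    apply hC
    intro j
    rw [inner_add_right, inner_smul_right, hy j, mul_zero, add_zero]
    exact hx j
  have h0 := hCx 0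
  rw [zero_smul, add_zero] at h0
  have h1 := hCx ((2 * C + 1) / ‖y‖)
  have hC0 : 0 ≤ C := (norm_nonneg x).trans h0
  have h2 : ‖((2 * C + 1) / ‖y‖) • y‖ = 2 * C + 1 := by
    rw [norm_smul, Real.norm_of_nonneg (by positivity)]
    field_simp
  have h3 : ‖((2 * C + 1) / ‖y‖) • y‖ ≤ ‖x + ((2 * C + 1) / ‖y‖) • y‖ + ‖x‖ := by
    have := norm_sub_le (x + ((2 * C + 1) / ‖y‖) • y) x
    rwa [add_sub_cancel_left] at this
  linarith

/-- In finite dimension, a pointwise sharp set is polyhedral. -/
theorem polyhedral_of_pointwiseSharp [FiniteDimensional ℝ H] {A : Set H} (hne : A.Nonempty)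
    (hcl : IsClosed A) (hconv : Convex ℝ A) (h : PointwiseSharp A) : IsPolyhedral A := by
  classical
  have : CompleteSpace H := FiniteDimensional.complete ℝ H
  have : ProperSpace H := FiniteDimensional.proper ℝ H
  choose! α hα hsharp using h
  have hcomp : IsCompact (Metric.sphere (0 : H) 1) := isCompact_sphere 0 1
  obtain ⟨t, ht⟩ := hcomp.elim_finite_subcover_image (b := Metric.sphere (0 : H) 1)
    (c := fun u => Metric.ball u (min (α u) 1)) (fun u _ => Metric.isOpen_ball) (by
      intro u hu
      apply Set.mem_biUnion hu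
      have h1 : ‖u‖ = 1 := by simpa using hu
      exact Metric.mem_ball_self (lt_min (hα u h1) one_pos))
  obtain ⟨hts, htf, htc⟩ := ht
  -- the finite set of directions in which `A` is bounded by an attained supremum
  set s : Set H := {u | u ∈ t ∧ ∃ x ∈ A, u ∈ normalCone A x} with hs
  have hsf : s.Finite := htf.subset fun u hu => hu.1
  choose! p hpA hpN using fun (u : H) (hu : u ∈ s) => hu.2
  have hAeq : A = {x | ∀ u ∈ s, ⟪u, x⟫ ≤ ⟪u, p u⟫} := by
    ext x
    constructor
    · intro hx u hu
      have := hpN u hu x hx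
      rw [inner_sub_left, real_inner_comm, real_inner_comm u (p u)] at this
      linarith
    · intro hx
      by_contra hxA
      obtain ⟨y, hy, hyN⟩ := exists_proj hne hcl hconv x
      have hne0 : x - y ≠ 0 := fun h0 => hxA (by rw [sub_eq_zero.1 h0]; exact hy)
      have hn : 0 < ‖x - y‖ := norm_pos_iff.2 hne0
      set v : H := ‖x - y‖⁻¹ • (x - y) with hv
      have hvn : ‖v‖ = 1 := by
        rw [hv, norm_smul, norm_inv, norm_norm, inv_mul_cancel₀ hn.ne']
      have hvN : v ∈ normalCone A y := smul_mem_normalCone hyN (by positivity)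
      obtain ⟨u, hut, huv⟩ := Set.mem_iUnion₂.1 (htc (show v ∈ Metric.sphere (0 : H) 1 by
        simpa using hvn))
      have hun : ‖u‖ = 1 := by simpa using hts hut
      rw [Metric.mem_ball, dist_comm] at huv
      have huN : u ∈ normalCone A y := by
        by_contra hcon
        have h1 := hsharp u hun y hy hcon
        have h2 := Metric.infDist_le_dist_of_mem (x := u) hvN
        have h3 := huv.trans_le (min_le_left _ _)
        linarith
      have hus : u ∈ s := ⟨hut, y, hy, huN⟩
      have h4 := hx u hus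
      have h5 : ⟪u, p u⟫ = ⟪u, y⟫ := by
        have h6 := huN (p u) (hpA u hus)
        have h7 := hpN u hus y hy
        rw [inner_sub_left, real_inner_comm, real_inner_comm u y] at h6
        rw [inner_sub_left, real_inner_comm, real_inner_comm u (p u)] at h7
        linarith
      have h8 : 0 < ⟪u, v⟫ := by
        have h9 : ‖u - v‖ < 1 := by
          rw [← dist_eq_norm]; exact huv.trans_le (min_le_right _ _)
        have h10 := norm_sub_sq_real u v
        rw [hun, hvn] at h10
        nlinarith [norm_nonneg (u - v)]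
      have h11 : ⟪u, x - y⟫ = ‖x - y‖ * ⟪u, v⟫ := by
        rw [hv, inner_smul_right]
        field_simp
      rw [inner_sub_right] at h11
      have h12 := mul_pos hn h8
      linarith
  -- enumerate `s`
  obtain ⟨n, e, he⟩ : ∃ (n : ℕ) (e : Fin n → H), Set.range e = s := by
    have := hsf.to_subtype
    obtain ⟨n, ⟨e⟩⟩ := Finite.exists_equiv_fin s
    refine ⟨n, fun i => (e.symm i : H), ?_⟩
    ext u
    constructor
    · rintro ⟨i, rfl⟩; exact (e.symm i).2
    · intro hu; exact ⟨e ⟨u, hu⟩, by simp⟩
  refine ⟨n + 1, Fin.cons 0 e, Fin.cons 0 fun i => ⟪e i, p (e i)⟫, by omega, ?_⟩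
  ext x
  constructor
  · intro hx j
    refine Fin.cases ?_ (fun i => ?_) j
    · simp
    · rw [hAeq] at hx
      simpa using hx (e i) (he ▸ ⟨i, rfl⟩)
  · intro hx
    rw [hAeq]
    intro u hu
    rw [← he] at hu
    obtain ⟨i, rfl⟩ := hu
    simpa using hx i.succ

end Q93.Sharp
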